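import Pool.Agent.helper25.KBR.Stokes

set_option maxSynthPendingDepth 3
noncomputable section

namespace KBR.D2

open Set MeasureTheory Metric
open scoped ContDiff RealInnerProductSpace NNReal

variable {n : ℕ}

/-- standard basis -/
def e (n : ℕ) (k : Fin n) : E n := EuclideanSpace.basisFun (Fin n) ℝ k

theorem sum_inner_smul (x : E n) : ∑ k, ⟪e n k, x⟫ • e n k = x :=
  (EuclideanSpace.basisFun (Fin n) ℝ).sum_repr' x

theorem sum_lin (φ : E n →L[ℝ] ℝ) (x : E n) : ∑ k, ⟪x, e n k⟫ * φ (e n k) = φ x := by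
  conv_rhs => rw [← sum_inner_smul x]
  rw [map_sum]
  refine Finset.sum_congr rfl fun k _ => ?_
  rw [map_smul, smul_eq_mul, real_inner_comm]

theorem sum_inner_mul (x y : E n) : ∑ k, ⟪x, e n k⟫ * ⟪e n k, y⟫ = ⟪x, y⟫ :=
  (EuclideanSpace.basisFun (Fin n) ℝ).sum_inner_mul_inner x y

theorem e_inner_self (k : Fin n) : ⟪e n k, e n k⟫ = 1 := by
  rw [real_inner_self_eq_norm_sq]
  have := (EuclideanSpace.basisFun (Fin n) ℝ).orthonormal.1 k
  rw [e, this]; norm_num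

/-- Hilbert–Schmidt pairing as a continuous bilinear map -/
def hsL (n : ℕ) : (E n →L[ℝ] E n) →L[ℝ] (E n →L[ℝ] E n) →L[ℝ] ℝ :=
  ∑ k, (innerSL ℝ).bilinearComp (ContinuousLinearMap.apply ℝ (E n) (e n k))
    (ContinuousLinearMap.apply ℝ (E n) (e n k))

theorem hsL_apply (A B : E n →L[ℝ] E n) : hsL n A B = ∑ k, ⟪A (e n k), B (e n k)⟫ := by
  simp only [hsL, sum_apply]
  refine Finset.sum_congr rfl fun k _ => ?_
  rfl

/-- the algebraic identity behind both computations: for a closed trilinear form and an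
antisymmetric operator -/
theorem cyc (D : E n →L[ℝ] E n →L[ℝ] E n) (P : E n →L[ℝ] E n)
    (hD : ∀ u v w, ⟪D u v, w⟫ = -⟪D u w, v⟫) (hP : ∀ u v, ⟪P u, v⟫ = -⟪P v, u⟫)
    (hc : ∀ u v w, ⟪D u v, w⟫ + ⟪D v w, u⟫ + ⟪D w u, v⟫ = 0) (v : E n) :
    2 * ∑ k, ⟪D (e n k) v, P (e n k)⟫ = ∑ k, ⟪D v (e n k), P (e n k)⟫ := by
  -- the bilinear form b(u,w) = ⟪D u v, w⟫
  have h1 : ∑ k, ⟪D (P (e n k)) v, e n k⟫ = - ∑ k, ⟪D (e n k) v, P (e n k)⟫ := by
    have h2 : ∀ k, ⟪D (P (e n k)) v, e n k⟫ =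
        ∑ l, ⟪P (e n k), e n l⟫ * ⟪D (e n l) v, e n k⟫ := by
      intro k
      have := sum_lin (((innerSL ℝ (e n k)).comp (D.flip v))) (P (e n k))
      simp only [ContinuousLinearMap.comp_apply, ContinuousLinearMap.flip_apply,
        innerSL_apply_apply] at this
      rw [real_inner_comm, ← this]
      refine Finset.sum_congr rfl fun l _ => ?_
      rw [real_inner_comm (D (e n l) v)]
    have h3 : ∀ l, ⟪D (e n l) v, P (e n l)⟫ =
        ∑ k, ⟪D (e n l) v, e n k⟫ * ⟪e n k, P (e n l)⟫ := by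
      intro l
      rw [sum_inner_mul]
    simp_rw [h2, h3]
    rw [Finset.sum_comm, ← Finset.sum_neg_distrib]
    refine Finset.sum_congr rfl fun l _ => ?_
    rw [← Finset.sum_neg_distrib]
    refine Finset.sum_congr rfl fun k _ => ?_
    rw [hP (e n k) (e n l), real_inner_comm (P (e n l))]
    ring
  have h4 : ∀ k, ⟪D (e n k) v, P (e n k)⟫ =
      ⟪D v (e n k), P (e n k)⟫ + ⟪D (P (e n k)) v, e n k⟫ := by
    intro k
    have := hc (e n k) v (P (e n k))
    have h5 := hD v (P (e n k)) (e n k)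
    have h6 := hD (P (e n k)) (e n k) v
    linarith
  have h7 : ∑ k, ⟪D (e n k) v, P (e n k)⟫ =
      ∑ k, ⟪D v (e n k), P (e n k)⟫ + ∑ k, ⟪D (P (e n k)) v, e n k⟫ := by
    rw [← Finset.sum_add_distrib]
    exact Finset.sum_congr rfl fun k _ => h4 k
  rw [h1] at h7
  linarith

end KBR.D2
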