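import Pool.Agent.helper25.KBR.Homotopy

set_option maxSynthPendingDepth 3
noncomputable section

namespace KBR.D2

open Set MeasureTheory Metric
open scoped ContDiff RealInnerProductSpace NNReal Topology

theorem homotopy_zero {n : ℕ} (N : ℕ) (hn : n = N + 3) (W η : E n → E n →L[ℝ] E n)
    (hW : ∀ x ∈ closedBall (0 : E n) 1, ContDiffAt ℝ 1 W x)
    (hη : ∀ x ∈ closedBall (0 : E n) 1, ContDiffAt ℝ 1 η x)
    (hWa : ∀ x ∈ ball (0 : E n) 1, ∀ u v, ⟪W x u, v⟫ = -⟪W x v, u⟫)
    (hηa : ∀ x ∈ ball (0 : E n) 1, ∀ u v w, ⟪fderiv ℝ η x u v, w⟫ = -⟪fderiv ℝ η x u w, v⟫)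
    (hdiv : ∀ x ∈ ball (0 : E n) 1, ∀ v, ∑ k, ⟪fderiv ℝ W x (e n k) v, e n k⟫ = 0)
    (hc : ∀ x ∈ ball (0 : E n) 1, ∀ u v w,
      ⟪fderiv ℝ η x u v, w⟫ + ⟪fderiv ℝ η x v w, u⟫ + ⟪fderiv ℝ η x w u, v⟫ = 0)
    (h0 : ∀ x ∈ sphere (0 : E n) 1, η x = 0) :
    ∫ x in ball (0 : E n) 1, hsL n (W x) (η x) = 0 := by
  have hnr : (n : ℝ) = N + 3 := by rw [hn]; push_cast; ring
  set F : ℝ → E n → ℝ := fun t x => t ^ (N+1) * hsL n (W (t • x)) (η x) with hF
  set F' : ℝ → E n → ℝ := fun t x => t ^ N * (((N : ℝ) + 1) * hsL n (W (t • x)) (η x) +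
    t * hsL n (fderiv ℝ W (t • x) x) (η x)) with hF'
  have hfin : IsFiniteMeasure ((volume : Measure (E n)).restrict (ball (0 : E n) 1)) :=
      ⟨by rw [Measure.restrict_apply_univ]; exact measure_ball_lt_top⟩
  have hsm : ∀ t ∈ Icc (-1 : ℝ) 1, ∀ x ∈ closedBall (0 : E n) 1, t • x ∈ closedBall (0 : E n) 1 := by
    intro t ht x hx
    simp only [mem_closedBall, dist_zero_right] at hx ⊢
    rw [norm_smul, Real.norm_eq_abs]
    have : |t| ≤ 1 := abs_le.2 ht
    nlinarith [norm_nonneg x, abs_nonneg t]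
  have hsm' : ∀ t ∈ Icc (-1 : ℝ) 1, ∀ x ∈ ball (0 : E n) 1, t • x ∈ ball (0 : E n) 1 := by
    intro t ht x hx
    simp only [mem_ball, dist_zero_right] at hx ⊢
    rw [norm_smul, Real.norm_eq_abs]
    have : |t| ≤ 1 := abs_le.2 ht
    nlinarith [norm_nonneg x, abs_nonneg t]
  -- continuity
  have cW : ContinuousOn W (closedBall 0 1) := fun x hx => (hW x hx).continuousAt.continuousWithinAt
  have cη : ContinuousOn η (closedBall 0 1) := fun x hx => (hη x hx).continuousAt.continuousWithinAt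
  have cW' : ContinuousOn (fderiv ℝ W) (closedBall 0 1) := fun x hx =>
    ((hW x hx).continuousAt_fderiv (by simp)).continuousWithinAt
  set S : Set (ℝ × E n) := Icc (-1 : ℝ) 1 ×ˢ closedBall (0 : E n) 1 with hS
  have cSm : ContinuousOn (fun q : ℝ × E n => q.1 • q.2) S := by fun_prop
  have mSm : MapsTo (fun q : ℝ × E n => q.1 • q.2) S (closedBall 0 1) :=
    fun q hq => hsm q.1 hq.1 q.2 hq.2
  have c1 : ContinuousOn (fun q : ℝ × E n => W (q.1 • q.2)) S := cW.comp cSm mSm
  have c2 : ContinuousOn (fun q : ℝ × E n => fderiv ℝ W (q.1 • q.2)) S := cW'.comp cSm mSm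
  have c3 : ContinuousOn (fun q : ℝ × E n => η q.2) S :=
    cη.comp continuousOn_snd (fun q hq => hq.2)
  have c4 : ContinuousOn (fun q : ℝ × E n => hsL n (W (q.1 • q.2)) (η q.2)) S :=
    (continuousOn_const.clm_apply c1).clm_apply c3
  have c5 : ContinuousOn (fun q : ℝ × E n => hsL n (fderiv ℝ W (q.1 • q.2) q.2) (η q.2)) S :=
    (continuousOn_const.clm_apply (c2.clm_apply continuousOn_snd)).clm_apply c3
  have cF : ContinuousOn (fun q : ℝ × E n => F q.1 q.2) S :=
    (continuousOn_fst.pow _).mul c4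
  have cF' : ContinuousOn (fun q : ℝ × E n => F' q.1 q.2) S :=
    (continuousOn_fst.pow _).mul ((continuousOn_const.mul c4).add (continuousOn_fst.mul c5))
  have hScpt : IsCompact S := isCompact_Icc.prod (isCompact_closedBall _ _)
  obtain ⟨C0, hC0⟩ := hScpt.exists_bound_of_continuousOn cF
  obtain ⟨C1, hC1⟩ := hScpt.exists_bound_of_continuousOn cF'
  have cFt : ∀ t ∈ Icc (-1 : ℝ) 1, ContinuousOn (F t) (ball 0 1) := fun t ht =>
    cF.comp (f := fun x : E n => (t, x)) (by fun_prop)
      (fun x hx => ⟨ht, ball_subset_closedBall hx⟩)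
  have cFt' : ∀ t ∈ Icc (-1 : ℝ) 1, ContinuousOn (F' t) (ball 0 1) := fun t ht =>
    cF'.comp (f := fun x : E n => (t, x)) (by fun_prop)
      (fun x hx => ⟨ht, ball_subset_closedBall hx⟩)
  have mFt : ∀ t ∈ Icc (-1 : ℝ) 1, AEStronglyMeasurable (F t) (volume.restrict (ball (0 : E n) 1)) :=
    fun t ht => (cFt t ht).aestronglyMeasurable measurableSet_ball
  have mFt' : ∀ t ∈ Icc (-1 : ℝ) 1,
      AEStronglyMeasurable (F' t) (volume.restrict (ball (0 : E n) 1)) :=
    fun t ht => (cFt' t ht).aestronglyMeasurable measurableSet_ball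
  have hae : ∀ᵐ x ∂((volume : Measure (E n)).restrict (ball (0 : E n) 1)), x ∈ ball (0 : E n) 1 :=
    ae_restrict_mem measurableSet_ball
  set I : ℝ → ℝ := fun t => ∫ x in ball (0 : E n) 1, F t x with hI
  -- the divergence computation
  have hzero : ∀ t ∈ Icc (-1 : ℝ) 1, ∫ x in ball (0 : E n) 1, F' t x = 0 := by
    intro t ht
    have hcd : ∀ x ∈ closedBall (0 : E n) 1, ContDiffAt ℝ 1 (vf W η t) x := by
      intro x hx
      have hWt : ContDiffAt ℝ 1 (fun y : E n => W (t • y)) x :=
        (hW _ (hsm t ht x hx)).comp x (contDiffAt_id.const_smul t)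
      have hη' := hη x hx
      unfold vf
      refine ContDiffAt.add ?_ ?_
      · have h1 : ContDiffAt ℝ 1 (fun y : E n => hsL n (W (t • y)) (η y)) x :=
          ((contDiffAt_const (c := hsL n)).clm_apply hWt).clm_apply hη'
        exact h1.smul contDiffAt_id
      · exact (hWt.clm_apply (hη'.clm_apply contDiffAt_id)).const_smul (2 : ℝ)
    have cfd : ContinuousOn (fderiv ℝ (vf W η t)) (closedBall 0 1) := fun x hx =>
      ((hcd x hx).continuousAt_fderiv (by simp)).continuousWithinAt
    obtain ⟨C, hC⟩ := (isCompact_closedBall (0 : E n) 1).exists_bound_of_continuousOn cfd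
    have hst := stokesV (vf W η t) (fderiv ℝ (vf W η t)) (C := C)
      (fun x hx => ((hcd x (ball_subset_closedBall hx)).differentiableAt (by simp)).hasFDerivAt)
      (cfd.mono ball_subset_closedBall)
      (fun x hx => hC x (ball_subset_closedBall hx))
      (fun x hx => (hcd x hx).continuousAt.continuousWithinAt)
      (fun x hx => by simp [vf, h0 x hx])
    have hpt : ∀ x ∈ ball (0 : E n) 1, F' t x =
        t ^ N * ∑ k, ⟪fderiv ℝ (vf W η t) x (e n k), e n k⟫ := by
      intro x hx
      have hx' := ball_subset_closedBall hx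
      have htx := hsm' t ht x hx
      obtain ⟨V', hV', hV'e⟩ := hasFDerivAt_vf W η t x (fderiv ℝ W (t • x)) (fderiv ℝ η x)
        ((hW _ (hsm t ht x hx')).differentiableAt (by simp)).hasFDerivAt
        ((hη _ hx').differentiableAt (by simp)).hasFDerivAt
      rw [hV'.fderiv]
      simp_rw [hV'e]
      rw [div_vf (W (t • x)) (η x) (fderiv ℝ W (t • x)) (fderiv ℝ η x) x t (hWa _ htx)
        (hηa x hx) (hdiv _ htx) (hc x hx)]
      simp only [hF', hnr]
      ring
    rw [setIntegral_congr_fun measurableSet_ball hpt, integral_const_mul, hst, mul_zero]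
  have hder : ∀ t ∈ Ioo (-1 : ℝ) 1, HasDerivAt I 0 t := by
    intro t ht
    have hnb : Ioo (-1 : ℝ) 1 ∈ 𝓝 t := Ioo_mem_nhds ht.1 ht.2
    have := hasDerivAt_integral_of_dominated_loc_of_deriv_le (F := F) (F' := F') (bound := fun _ => C1)
      (μ := (volume : Measure (E n)).restrict (ball (0 : E n) 1)) (x₀ := t) (s := Ioo (-1 : ℝ) 1) hnb
      (by filter_upwards [hnb] with s hs using mFt s (Ioo_subset_Icc_self hs))
      (Integrable.of_bound (mFt t (Ioo_subset_Icc_self ht)) C0
        (by filter_upwards [hae] with x hx using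
          hC0 (t, x) ⟨Ioo_subset_Icc_self ht, ball_subset_closedBall hx⟩))
      (mFt' t (Ioo_subset_Icc_self ht))
      (by filter_upwards [hae] with x hx s hs using
          hC1 (s, x) ⟨Ioo_subset_Icc_self hs, ball_subset_closedBall hx⟩)
      (integrable_const _)
      (by
        filter_upwards [hae] with x hx s hs
        have hsx := hsm s (Ioo_subset_Icc_self hs) x (ball_subset_closedBall hx)
        have d1 : HasDerivAt (fun r : ℝ => r • x) x s := by
          simpa using (hasDerivAt_id s).smul_const x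
        have d2 : HasDerivAt (fun r : ℝ => W (r • x)) (fderiv ℝ W (s • x) x) s :=
          ((hW _ hsx).differentiableAt (by simp)).hasFDerivAt.comp_hasDerivAt s d1
        have d3 : HasDerivAt (fun r : ℝ => hsL n (W (r • x)) (η x))
            (hsL n (fderiv ℝ W (s • x) x) (η x)) s :=
          ((hsL n).flip (η x)).hasFDerivAt.comp_hasDerivAt (f := fun r : ℝ => W (r • x)) s d2
        have d4 := (hasDerivAt_pow (N+1) s).mul d3
        refine d4.congr_deriv ?_
        simp only [hF']
        push_cast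
        ring)
    have h2 := this.2
    rw [hzero t (Ioo_subset_Icc_self ht)] at h2
    exact h2
  have hcont : ContinuousOn I (Icc 0 1) := by
    refine continuousOn_of_dominated (bound := fun _ => C0) ?_ ?_ (integrable_const _) ?_
    · intro t ht
      exact mFt t ⟨by linarith [ht.1], ht.2⟩
    · intro t ht
      filter_upwards [hae] with x hx using
        hC0 (t, x) ⟨⟨by linarith [ht.1], ht.2⟩, ball_subset_closedBall hx⟩
    · filter_upwards [hae] with x hx
      exact cF.comp (f := fun t : ℝ => (t, x)) (by fun_prop)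
        (fun t ht => ⟨⟨by linarith [ht.1], ht.2⟩, ball_subset_closedBall hx⟩)
  have hconst := constant_of_has_deriv_right_zero hcont
    (fun t ht => (hder t ⟨by linarith [ht.1], ht.2⟩).hasDerivWithinAt) 1 (by simp)
  have hI0 : I 0 = 0 := by simp [hI, hF]
  rw [hI0] at hconst
  simpa [hI, hF] using hconst

end KBR.D2
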