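import Pool.Agent.helper25.KBR.Alg

set_option maxSynthPendingDepth 3
noncomputable section

namespace KBR.D2

open Set MeasureTheory Metric
open scoped ContDiff RealInnerProductSpace NNReal

variable {n : ℕ}

theorem stokesV (V : E n → E n) (V' : E n → E n →L[ℝ] E n) {C : ℝ}
    (hd : ∀ x ∈ ball (0 : E n) 1, HasFDerivAt V (V' x) x)
    (hV'c : ContinuousOn V' (ball (0 : E n) 1))
    (hb : ∀ x ∈ ball (0 : E n) 1, ‖V' x‖ ≤ C)
    (hc : ContinuousOn V (closedBall 0 1))
    (h0 : ∀ x ∈ sphere (0 : E n) 1, V x = 0) :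
    ∫ x in ball (0 : E n) 1, ∑ k, ⟪V' x (e n k), e n k⟫ = 0 := by
  have hC : 0 ≤ C := (norm_nonneg _).trans (hb 0 (by simp))
  have hen : ∀ k, ‖e n k‖ = 1 := fun k => (EuclideanSpace.basisFun (Fin n) ℝ).orthonormal.1 k
  rw [integral_finsetSum]
  · apply Finset.sum_eq_zero
    intro k _
    have := stokes0 (fun x => ⟪V x, e n k⟫)
      (fun x => (innerSL ℝ (e n k)).comp (V' x)) (C := C)
      (by
        intro x hx
        have := ((innerSL ℝ (e n k)).hasFDerivAt (x := V x)).comp x (hd x hx)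
        refine this.congr_of_eventuallyEq (Filter.Eventually.of_forall fun y => ?_)
        simp [real_inner_comm])
      (by
        intro x hx
        refine (ContinuousLinearMap.opNorm_comp_le _ _).trans ?_
        rw [innerSL_apply_norm, hen, one_mul]
        exact hb x hx)
      (hc.inner continuousOn_const)
      (by intro x hx; simp [h0 x hx])
      (e n k)
    rw [← this]
    congr 1
    ext x
    simp [real_inner_comm]
  · intro k _
    have hco : ContinuousOn (fun x => ⟪V' x (e n k), e n k⟫) (ball (0 : E n) 1) :=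
      (hV'c.clm_apply continuousOn_const).inner continuousOn_const
    have : IsFiniteMeasure ((volume : Measure (E n)).restrict (ball (0 : E n) 1)) :=
      ⟨by rw [Measure.restrict_apply_univ]; exact measure_ball_lt_top⟩
    have hm : IntegrableOn (fun x => ⟪V' x (e n k), e n k⟫) (ball (0 : E n) 1) volume := by
      refine Integrable.of_bound (hco.aestronglyMeasurable measurableSet_ball) C ?_
      filter_upwards [ae_restrict_mem (measurableSet_ball (x := (0 : E n)) (ε := 1))] with x hx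
      calc ‖⟪V' x (e n k), e n k⟫‖ ≤ ‖V' x (e n k)‖ * ‖e n k‖ := norm_inner_le_norm _ _
        _ ≤ C * 1 := by
            rw [hen, mul_one, mul_one]
            calc _ ≤ ‖V' x‖ * ‖e n k‖ := ContinuousLinearMap.le_opNorm _ _
              _ ≤ C := by rw [hen, mul_one]; exact hb x hx
        _ = C := mul_one C
    exact hm

/-- the vector field of the radial homotopy -/
def vf (W η : E n → E n →L[ℝ] E n) (t : ℝ) (x : E n) : E n :=
  (hsL n (W (t • x)) (η x)) • x + (2 : ℝ) • W (t • x) (η x x)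

theorem hasFDerivAt_vf (W η : E n → E n →L[ℝ] E n) (t : ℝ) (x : E n)
    (W' η' : E n →L[ℝ] E n →L[ℝ] E n) (hW : HasFDerivAt W W' (t • x))
    (hη : HasFDerivAt η η' x) :
    ∃ V' : E n →L[ℝ] E n, HasFDerivAt (vf W η t) V' x ∧
      ∀ u, V' u = (hsL n (W (t • x)) (η x)) • u +
        (hsL n (W (t • x)) (η' u) + t * hsL n (W' u) (η x)) • x +
        (2 : ℝ) • (W (t • x) (η' u x + η x u) + t • W' u (η x x)) := by
  have h1 : HasFDerivAt (fun y : E n => t • y) (t • ContinuousLinearMap.id ℝ (E n)) x :=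
    (hasFDerivAt_id x).const_smul t
  have h2 : HasFDerivAt (fun y : E n => W (t • y)) (W'.comp (t • ContinuousLinearMap.id ℝ (E n))) x :=
    hW.comp x h1
  have h3 := (hsL n).hasFDerivAt_of_bilinear h2 hη
  have h4 := h3.smul (hasFDerivAt_id x)
  have h5 := (h2.clm_apply (hη.clm_apply (hasFDerivAt_id x))).const_smul (2 : ℝ)
  refine ⟨_, h4.add h5, ?_⟩
  intro u
  simp
  abel

theorem div_vf (A H : E n →L[ℝ] E n) (A' H' : E n →L[ℝ] E n →L[ℝ] E n) (x : E n) (t : ℝ)
    (hA : ∀ u v, ⟪A u, v⟫ = -⟪A v, u⟫)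
    (hH' : ∀ u v w, ⟪H' u v, w⟫ = -⟪H' u w, v⟫)
    (hdiv : ∀ v, ∑ k, ⟪A' (e n k) v, e n k⟫ = 0)
    (hc : ∀ u v w, ⟪H' u v, w⟫ + ⟪H' v w, u⟫ + ⟪H' w u, v⟫ = 0) :
    ∑ k, ⟪(hsL n A H) • e n k + (hsL n A (H' (e n k)) + t * hsL n (A' (e n k)) H) • x +
        (2 : ℝ) • (A (H' (e n k) x + H (e n k)) + t • A' (e n k) (H x)), e n k⟫ =
      ((n : ℝ) - 2) * hsL n A H + t * hsL n (A' x) H := by
  have h1 : ∑ k, ⟪x, e n k⟫ * (hsL n A (H' (e n k)) + t * hsL n (A' (e n k)) H) =
      hsL n A (H' x) + t * hsL n (A' x) H := by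
    have := sum_lin ((hsL n A).comp H' + t • ((hsL n).flip H).comp A') x
    simpa using this
  have h2 : ∑ k, ⟪A (H' (e n k) x), e n k⟫ = - ∑ k, ⟪H' (e n k) x, A (e n k)⟫ := by
    rw [← Finset.sum_neg_distrib]
    refine Finset.sum_congr rfl fun k _ => ?_
    rw [hA, real_inner_comm]
  have h3 := cyc H' A hH' hA hc x
  have h4 : ∑ k, ⟪A (H (e n k)), e n k⟫ = - hsL n A H := by
    rw [hsL_apply, ← Finset.sum_neg_distrib]
    refine Finset.sum_congr rfl fun k _ => ?_
    rw [hA]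
  have h5 : hsL n A (H' x) = ∑ k, ⟪H' x (e n k), A (e n k)⟫ := by
    rw [hsL_apply]
    exact Finset.sum_congr rfl fun k _ => real_inner_comm _ _
  have h6 := hdiv (H x)
  have h7 : ∀ k, ⟪(hsL n A H) • e n k + (hsL n A (H' (e n k)) + t * hsL n (A' (e n k)) H) • x +
        (2 : ℝ) • (A (H' (e n k) x + H (e n k)) + t • A' (e n k) (H x)), e n k⟫ =
      hsL n A H + ⟪x, e n k⟫ * (hsL n A (H' (e n k)) + t * hsL n (A' (e n k)) H) +
        2 * ⟪A (H' (e n k) x), e n k⟫ + 2 * ⟪A (H (e n k)), e n k⟫ +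
        2 * t * ⟪A' (e n k) (H x), e n k⟫ := by
    intro k
    simp only [inner_add_left, real_inner_smul_left, e_inner_self, map_add]
    ring
  simp_rw [h7, Finset.sum_add_distrib, ← Finset.mul_sum]
  rw [h1, h2, h4, h6, h5, ← h3]
  simp
  ring

end KBR.D2
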