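import Pool.Agent.helper25.KBR.Alg

set_option maxSynthPendingDepth 3
noncomputable section

namespace KBR.D2

open Set MeasureTheory Metric
open scoped ContDiff RealInnerProductSpace NNReal Topology

variable {n : ℕ}

/-- the matrix of an operator in the standard basis -/
def mat (A : E n →L[ℝ] E n) : Matrix (Fin n) (Fin n) ℝ := fun i j => ⟪A (e n j), e n i⟫

theorem mat_eq (A : E n →L[ℝ] E n) :
    mat A = LinearMap.toMatrix (EuclideanSpace.basisFun (Fin n) ℝ).toBasis
      (EuclideanSpace.basisFun (Fin n) ℝ).toBasis (A : E n →ₗ[ℝ] E n) := by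
  ext i j
  rw [LinearMap.toMatrix_apply, OrthonormalBasis.coe_toBasis_repr_apply,
    OrthonormalBasis.repr_apply_apply, mat, real_inner_comm, OrthonormalBasis.coe_toBasis]
  rfl

theorem det_eq (A : E n →L[ℝ] E n) : A.det = (mat A).det := by
  rw [mat_eq, LinearMap.det_toMatrix]

/-- trace of an operator -/
theorem trace_eq (A : E n →L[ℝ] E n) :
    LinearMap.trace ℝ (E n) (A : E n →ₗ[ℝ] E n) = ∑ k, ⟪A (e n k), e n k⟫ := by
  rw [LinearMap.trace_eq_matrix_trace ℝ (EuclideanSpace.basisFun (Fin n) ℝ).toBasis, ← mat_eq,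
    Matrix.trace]
  rfl

theorem mat_one : mat (1 : E n →L[ℝ] E n) = 1 := by
  rw [mat_eq]
  exact LinearMap.toMatrix_one _

theorem mat_mul (A B : E n →L[ℝ] E n) : mat (A * B) = mat A * mat B := by
  rw [mat_eq, mat_eq, mat_eq]
  exact LinearMap.toMatrix_comp _ _ _ _ _

theorem mat_add (A B : E n →L[ℝ] E n) : mat (A + B) = mat A + mat B := by
  ext i j; simp [mat, inner_add_left]

theorem mat_smul (c : ℝ) (A : E n →L[ℝ] E n) : mat (c • A) = c • mat A := by
  ext i j; simp [mat, real_inner_smul_left]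

theorem contDiff_det {m : WithTop ℕ∞} :
    ContDiff ℝ m (fun A : E n →L[ℝ] E n => A.det) := by
  have : (fun A : E n →L[ℝ] E n => A.det) = fun A : E n →L[ℝ] E n => (mat A).det := by
    ext A; exact det_eq A
  rw [this]
  simp_rw [Matrix.det_apply]
  refine ContDiff.sum fun σ _ => ?_
  refine ContDiff.const_smul _ ?_
  refine contDiff_prod fun i _ => ?_
  unfold mat
  exact (contDiff_id.clm_apply contDiff_const).inner ℝ contDiff_const

theorem det_mul (A B : E n →L[ℝ] E n) : (A * B).det = A.det * B.det := by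
  rw [det_eq, det_eq, det_eq, mat_mul, Matrix.det_mul]

theorem fderiv_det (A : E n →L[ℝ] E n) (hA : IsUnit A) (H : E n →L[ℝ] E n) :
    fderiv ℝ (fun A : E n →L[ℝ] E n => A.det) A H =
      A.det * ∑ k, ⟪Ring.inverse A (H (e n k)), e n k⟫ := by
  have hd : HasFDerivAt (fun A : E n →L[ℝ] E n => A.det)
      (fderiv ℝ (fun A : E n →L[ℝ] E n => A.det) A) A :=
    ((contDiff_det (m := 1)).contDiffAt.differentiableAt (by simp)).hasFDerivAt
  have hl : HasDerivAt (fun t : ℝ => A + t • H) H 0 := by
    simpa using ((hasDerivAt_id (0 : ℝ)).smul_const H).const_add A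
  have h1 : HasDerivAt (fun t : ℝ => (A + t • H).det)
      (fderiv ℝ (fun A : E n →L[ℝ] E n => A.det) A H) 0 := by
    have hd' : HasFDerivAt (fun A : E n →L[ℝ] E n => A.det)
      (fderiv ℝ (fun A : E n →L[ℝ] E n => A.det) A) (A + (0 : ℝ) • H) := by simpa using hd
    exact hd'.comp_hasDerivAt (0 : ℝ) hl
  set X := Ring.inverse A * H with hX
  have h2 : ∀ t : ℝ, (A + t • H).det = A.det * (1 + (mat X).trace * t +
      (Matrix.det (1 + (Polynomial.X : Polynomial ℝ) • (mat X).map Polynomial.C)).divX.divX.eval t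
        * t ^ 2) := by
    intro t
    have : A + t • H = A * (1 + t • X) := by
      rw [mul_add, mul_one, mul_smul_comm, hX, ← mul_assoc, Ring.mul_inverse_cancel A hA, one_mul]
    rw [this, det_mul]
    congr 1
    rw [det_eq, mat_add, mat_one, mat_smul, Matrix.det_one_add_smul]
  have h3 : HasDerivAt (fun t : ℝ => (A + t • H).det) (A.det * (mat X).trace) 0 := by
    have : (fun t : ℝ => (A + t • H).det) = fun t : ℝ => A.det * (1 + (mat X).trace * t +
      (Matrix.det (1 + (Polynomial.X : Polynomial ℝ) • (mat X).map Polynomial.C)).divX.divX.eval t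
        * t ^ 2) := funext h2
    rw [this]
    set p := (Matrix.det (1 + (Polynomial.X : Polynomial ℝ) • (mat X).map Polynomial.C)).divX.divX
    have hp := (p.hasDerivAt 0).mul (hasDerivAt_pow 2 (0 : ℝ))
    have hq := ((((hasDerivAt_id (0 : ℝ)).const_mul ((mat X).trace)).const_add 1).add hp).const_mul
      (A.det)
    refine hq.congr_deriv ?_
    simp
  have h4 := h1.unique h3
  rw [h4, hX, Matrix.trace]
  rfl

end KBR.D2
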