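import Pool.Agent.helper21.KBR.Defs

noncomputable section

namespace KBR.D2

open Set MeasureTheory Metric
open scoped ContDiff RealInnerProductSpace NNReal

variable {n : ℕ}

/-- a function on the closed ball, Lipschitz, vanishing on the sphere: extension by zero is Lipschitz -/
theorem lip_ext (f : E n → ℝ) (K : ℝ≥0) (hf : LipschitzOnWith K f (closedBall (0 : E n) 1))
    (h0 : ∀ x ∈ sphere (0 : E n) 1, f x = 0) :
    LipschitzWith K ((closedBall (0 : E n) 1).indicator f) := by
  have key : ∀ x y : E n, x ∈ closedBall (0 : E n) 1 → y ∉ closedBall (0 : E n) 1 →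
      |f x| ≤ K * dist x y := by
    intro x y hx hy
    have hcont : ContinuousOn (fun t : ℝ => ‖x + t • (y - x)‖) (Icc 0 1) := by fun_prop
    have h1 : (1 : ℝ) ∈ Icc (‖x + (0 : ℝ) • (y - x)‖) (‖x + (1 : ℝ) • (y - x)‖) := by
      constructor
      · simpa using hx
      · simp only [one_smul, add_sub_cancel]
        simp only [mem_closedBall, dist_zero_right, not_le] at hy
        exact hy.le
    obtain ⟨t, ht, hz⟩ := intermediate_value_Icc (zero_le_one) hcont h1
    have hz' : f (x + t • (y - x)) = 0 := h0 _ (by simpa using hz)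
    have hmem : x + t • (y - x) ∈ closedBall (0 : E n) 1 := by
      simp only [mem_closedBall, dist_zero_right]; exact le_of_eq hz
    have h2 := hf.dist_le_mul x hx _ hmem
    rw [hz', Real.dist_eq, sub_zero] at h2
    refine h2.trans ?_
    apply mul_le_mul_of_nonneg_left _ K.2
    rw [dist_eq_norm, dist_eq_norm]
    have : x - (x + t • (y - x)) = t • (x - y) := by
      rw [smul_sub, smul_sub]; abel
    rw [this, norm_smul, Real.norm_eq_abs, abs_of_nonneg ht.1]
    exact mul_le_of_le_one_left (norm_nonneg _) ht.2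
  refine LipschitzWith.of_dist_le_mul fun x y => ?_
  by_cases hx : x ∈ closedBall (0 : E n) 1 <;> by_cases hy : y ∈ closedBall (0 : E n) 1
  · rw [indicator_of_mem hx, indicator_of_mem hy]
    exact hf.dist_le_mul x hx y hy
  · rw [indicator_of_mem hx, indicator_of_notMem hy, Real.dist_eq, sub_zero]
    exact key x y hx hy
  · rw [indicator_of_notMem hx, indicator_of_mem hy, dist_comm, Real.dist_eq, sub_zero, dist_comm]
    exact key y x hy hx
  · rw [indicator_of_notMem hx, indicator_of_notMem hy, dist_self]
    positivity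

theorem stokes0 (f : E n → ℝ) (f' : E n → E n →L[ℝ] ℝ) {C : ℝ}
    (hd : ∀ x ∈ ball (0 : E n) 1, HasFDerivAt f (f' x) x)
    (hb : ∀ x ∈ ball (0 : E n) 1, ‖f' x‖ ≤ C)
    (hc : ContinuousOn f (closedBall 0 1))
    (h0 : ∀ x ∈ sphere (0 : E n) 1, f x = 0) (v : E n) :
    ∫ x in ball (0 : E n) 1, f' x v = 0 := by
  have hC : 0 ≤ C := (norm_nonneg _).trans (hb 0 (by simp))
  set K : ℝ≥0 := ⟨C, hC⟩ with hK
  have hl : LipschitzOnWith K f (ball (0 : E n) 1) :=
    (convex_ball (0 : E n) 1).lipschitzOnWith_of_nnnorm_hasFDerivWithin_le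
      (fun x hx => (hd x hx).hasFDerivWithinAt) (fun x hx => hb x hx)
  have hcl : closure (ball (0 : E n) 1) = closedBall 0 1 := closure_ball _ one_ne_zero
  have hl' : LipschitzOnWith K f (closedBall (0 : E n) 1) := by
    rw [← hcl] at hc ⊢
    exact hl.closure hc
  have hL := lip_ext f K hl' h0
  set g := (closedBall (0 : E n) 1).indicator f with hg
  have hcs : HasCompactSupport g := by
    apply HasCompactSupport.intro (isCompact_closedBall (0 : E n) 1)
    intro x hx
    exact indicator_of_notMem hx _
  have h1 := LipschitzWith.integral_lineDeriv_mul_eq (μ := (volume : Measure (E n)))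
    (f := fun _ => (1 : ℝ)) (C := 0) (LipschitzWith.const 1) hL hcs (-v)
  have h2 : ∀ x : E n, lineDeriv ℝ (fun _ : E n => (1 : ℝ)) x (-v) = 0 := by
    intro x
    simp [lineDeriv]
  simp only [h2, zero_mul, integral_zero, neg_neg, mul_one] at h1
  rw [← integral_indicator measurableSet_ball, h1]
  apply integral_congr_ae
  have hs : (volume : Measure (E n)) (sphere (0 : E n) 1) = 0 :=
    Measure.addHaar_sphere_of_ne_zero _ _ one_ne_zero
  have hs' : ∀ᵐ x ∂(volume : Measure (E n)), x ∉ sphere (0 : E n) 1 := by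
    exact measure_eq_zero_iff_ae_notMem.1 hs
  filter_upwards [hs'] with x hx
  by_cases hxb : x ∈ ball (0 : E n) 1
  · rw [indicator_of_mem hxb]
    have : g =ᶠ[nhds x] f := by
      filter_upwards [isOpen_ball.mem_nhds hxb] with y hy
      exact indicator_of_mem (ball_subset_closedBall hy) _
    exact (((hd x hxb).congr_of_eventuallyEq this).hasLineDerivAt v).lineDeriv.symm
  · rw [indicator_of_notMem hxb]
    have hxo : x ∈ (closedBall (0 : E n) 1)ᶜ := by
      intro hx'
      rcases eq_or_lt_of_le (mem_closedBall.1 hx') with h | h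
      · exact hx (mem_sphere.2 h)
      · exact hxb (mem_ball.2 h)
    have : g =ᶠ[nhds x] fun _ => 0 := by
      filter_upwards [isClosed_closedBall.isOpen_compl.mem_nhds hxo] with y hy
      exact indicator_of_notMem hy _
    rw [this.lineDeriv_eq]
    simp [lineDeriv]

end KBR.D2
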