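import Pool.Agent.helper25.KBR.Jacobi
import Pool.Agent.helper25.KBR.HomZero

set_option maxSynthPendingDepth 3
noncomputable section

namespace KBR.D2

open Set MeasureTheory Metric
open scoped ContDiff RealInnerProductSpace NNReal Topology

variable {n : ℕ}

theorem isUnit_of_pos (A : E n →L[ℝ] E n) (h : ∀ v, v ≠ 0 → 0 < ⟪A v, v⟫) : IsUnit A := by
  have hinj : Function.Injective (A : E n →ₗ[ℝ] E n) := by
    rw [← LinearMap.ker_eq_bot, LinearMap.ker_eq_bot']
    intro v hv
    by_contra hne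
    have := h v hne
    rw [show A v = 0 from hv, inner_zero_left] at this
    exact lt_irrefl _ this
  let L := (LinearEquiv.ofInjectiveEndo (A : E n →ₗ[ℝ] E n) hinj).toContinuousLinearEquiv
  have hL : (L : E n →L[ℝ] E n) = A := by
    ext v; rfl
  refine ⟨⟨A, (L.symm : E n →L[ℝ] E n), ?_, ?_⟩, rfl⟩
  · rw [← hL]; ext v; simp
  · rw [← hL]; ext v; simp

theorem det_ne_zero_of_isUnit (A : E n →L[ℝ] E n) (h : IsUnit A) : A.det ≠ 0 := by
  intro h0
  have h1 := det_mul A (Ring.inverse A)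
  rw [Ring.mul_inverse_cancel A h, h0, zero_mul] at h1
  rw [det_eq, mat_one, Matrix.det_one] at h1
  exact one_ne_zero h1

theorem det_pos_of_pos (A : E n →L[ℝ] E n) (h : ∀ v, v ≠ 0 → 0 < ⟪A v, v⟫) : 0 < A.det := by
  by_contra hneg
  push Not at hneg
  set f : ℝ → ℝ := fun t => ((1 : E n →L[ℝ] E n) + t • (A - 1)).det with hf
  have hcont : Continuous f := by
    have : Continuous fun t : ℝ => ((1 : E n →L[ℝ] E n) + t • (A - 1)) := by fun_prop
    exact (contDiff_det (m := 0)).continuous.comp this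
  have hne : ∀ t ∈ Icc (0 : ℝ) 1, f t ≠ 0 := by
    intro t ht
    apply det_ne_zero_of_isUnit
    apply isUnit_of_pos
    intro v hv
    have h1 := h v hv
    have h2 : 0 < ⟪v, v⟫ := by rw [real_inner_self_eq_norm_sq]; positivity
    have : ⟪((1 : E n →L[ℝ] E n) + t • (A - 1)) v, v⟫ = (1 - t) * ⟪v, v⟫ + t * ⟪A v, v⟫ := by
      simp only [add_apply, smul_apply, sub_apply, one_apply_eq_self,
        inner_add_left, real_inner_smul_left, inner_sub_left]
      ring
    rw [this]
    rcases eq_or_lt_of_le ht.1 with h0 | h0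
    · rw [← h0]; simpa using h2
    · have : 0 ≤ (1 - t) * ⟪v, v⟫ := mul_nonneg (by linarith [ht.2]) h2.le
      have : 0 < t * ⟪A v, v⟫ := mul_pos h0 h1
      linarith
  have h0 : f 0 = 1 := by
    simp only [hf, zero_smul, add_zero]
    rw [det_eq, mat_one, Matrix.det_one]
  have h1 : f 1 = A.det := by simp [hf]
  have hmem : (0 : ℝ) ∈ Icc (f 1) (f 0) := by
    rw [h0, h1]; exact ⟨hneg, zero_le_one⟩
  obtain ⟨t, ht, hft⟩ := intermediate_value_Icc' zero_le_one hcont.continuousOn hmem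
  exact hne t ht hft

theorem det_sq_of_sq (J : E n →L[ℝ] E n) (h : J * J = -1) : J.det ^ 2 = 1 := by
  have h1 : J.det * J.det = (-1 : E n →L[ℝ] E n).det := by rw [← det_mul, h]
  have h2 : (-1 : E n →L[ℝ] E n).det * (-1 : E n →L[ℝ] E n).det = 1 := by
    rw [← det_mul, neg_mul_neg, one_mul, det_eq, mat_one, Matrix.det_one]
  rw [← h1] at h2
  have h3 : 0 ≤ J.det ^ 2 := sq_nonneg _
  nlinarith [h2, h3]

theorem fderiv_antisymm (f : E n → E n →L[ℝ] E n) (x : E n) (hx : x ∈ ball (0 : E n) 1)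
    (hf : DifferentiableAt ℝ f x)
    (ha : ∀ y ∈ ball (0 : E n) 1, ∀ u v, ⟪f y u, v⟫ = -⟪f y v, u⟫) (u v w : E n) :
    ⟪fderiv ℝ f x u v, w⟫ = -⟪fderiv ℝ f x u w, v⟫ := by
  have h1 : ∀ v w : E n, HasFDerivAt (fun y => ⟪f y v, w⟫)
      ((innerSL ℝ w).comp ((fderiv ℝ f x).flip v)) x := by
    intro v w
    have h2 : HasFDerivAt (fun y => f y v) ((fderiv ℝ f x).flip v) x := by
      have := hf.hasFDerivAt.clm_apply (hasFDerivAt_const v x)
      refine this.congr_fderiv ?_
      ext z; simp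
    have h3 := (innerSL ℝ w).hasFDerivAt.comp x h2
    refine h3.congr_of_eventuallyEq (Filter.Eventually.of_forall fun y => ?_)
    simp [real_inner_comm]
  have h4 := h1 v w
  have h5 := (h1 w v).neg
  have h6 : (fun y => ⟪f y v, w⟫) =ᶠ[𝓝 x] fun y => -⟪f y w, v⟫ := by
    filter_upwards [isOpen_ball.mem_nhds hx] with y hy using ha y hy v w
  have h7 := (h5.congr_of_eventuallyEq h6).unique h4
  have h8 := congrArg (fun L : E n →L[ℝ] ℝ => L u) h7
  simp at h8
  rw [real_inner_comm, real_inner_comm v] 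
  linarith

end KBR.D2
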