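import Pool.Agent.helper25.KBR.TraceId

set_option maxSynthPendingDepth 3
noncomputable section

namespace KBR.D2

open Set MeasureTheory Metric
open scoped ContDiff RealInnerProductSpace NNReal Topology

variable {n : ℕ}

theorem inverse_antisymm (O : E n →L[ℝ] E n) (hU : IsUnit O)
    (ha : ∀ u v, ⟪O u, v⟫ = -⟪O v, u⟫) (u v : E n) :
    ⟪Ring.inverse O u, v⟫ = -⟪Ring.inverse O v, u⟫ := by
  have h1 : ∀ w, O (Ring.inverse O w) = w := by
    intro w
    have := Ring.mul_inverse_cancel O hU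
    exact congrArg (fun L : E n →L[ℝ] E n => L w) this
  conv_lhs => rw [← h1 v]
  conv_rhs => rw [← h1 u]
  rw [real_inner_comm, ha, real_inner_comm]
  

/-- the weight `W = √(det G) Ω⁻¹` -/
def Wf (G O : E n → E n →L[ℝ] E n) (y : E n) : E n →L[ℝ] E n :=
  Real.sqrt (G y).det • Ring.inverse (O y)

theorem contDiffAt_Wf (G O : E n → E n →L[ℝ] E n) (x : E n) (hG : ContDiffAt ℝ 1 G x)
    (hO : ContDiffAt ℝ 1 O x) (hpos : 0 < (G x).det) (hU : IsUnit (O x)) :
    ContDiffAt ℝ 1 (Wf G O) x := by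
  have h1 : ContDiffAt ℝ 1 (fun y => (G y).det) x :=
    (contDiff_det (m := 1)).contDiffAt.comp x hG
  have h2 : ContDiffAt ℝ 1 (fun y => Real.sqrt (G y).det) x := h1.sqrt hpos.ne'
  have h3 : ContDiffAt ℝ 1 (fun y => Ring.inverse (O y)) x := by
    obtain ⟨u, hu⟩ := hU
    have := contDiffAt_ringInverse ℝ (n := 1) u
    rw [hu] at this
    exact this.comp x hO
  exact h2.smul h3

theorem div_Wf (G O : E n → E n →L[ℝ] E n) (x : E n) (hG : ContDiffAt ℝ 1 G x)
    (hO : ContDiffAt ℝ 1 O x) (hpos : 0 < (G x).det) (hU : IsUnit (O x))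
    (hdet : ∀ᶠ y in 𝓝 x, 0 < (G y).det ∧ (G y).det ^ 2 = (O y).det ^ 2)
    (ha : ∀ u v, ⟪O x u, v⟫ = -⟪O x v, u⟫)
    (ha' : ∀ u v w, ⟪fderiv ℝ O x u v, w⟫ = -⟪fderiv ℝ O x u w, v⟫)
    (hc : ∀ u v w, ⟪fderiv ℝ O x u v, w⟫ + ⟪fderiv ℝ O x v w, u⟫ + ⟪fderiv ℝ O x w u, v⟫ = 0)
    (v : E n) :
    ∑ k, ⟪fderiv ℝ (Wf G O) x (e n k) v, e n k⟫ = 0 := by
  set P := Ring.inverse (O x) with hP
  set O' := fderiv ℝ O x with hO'
  have hOd : HasFDerivAt O O' x := (hO.differentiableAt (by simp)).hasFDerivAt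
  have h1 : ContDiffAt ℝ 1 (fun y => (G y).det) x :=
    (contDiff_det (m := 1)).contDiffAt.comp x hG
  have h2 : ContDiffAt ℝ 1 (fun y => Real.sqrt (G y).det) x := h1.sqrt hpos.ne'
  set s : E n → ℝ := fun y => Real.sqrt (G y).det with hs
  set s' := fderiv ℝ s x with hs'
  have hsd : HasFDerivAt s s' x := (h2.differentiableAt (by simp)).hasFDerivAt
  have hsx : 0 < s x := Real.sqrt_pos.2 hpos
  -- derivative of s
  have hs'e : ∀ u, s' u = s x / 2 * ∑ k, ⟪P (O' u (e n k)), e n k⟫ := by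
    intro u
    have hD : HasFDerivAt (fun A : E n →L[ℝ] E n => A.det)
        (fderiv ℝ (fun A : E n →L[ℝ] E n => A.det) (O x)) (O x) :=
      ((contDiff_det (m := 1)).contDiffAt.differentiableAt (by simp)).hasFDerivAt
    have hD2 : HasFDerivAt (fun y => (O y).det)
        ((fderiv ℝ (fun A : E n →L[ℝ] E n => A.det) (O x)).comp O') x := hD.comp x hOd
    have hD3 := hD2.pow 2
    have hD4 := hsd.pow 4
    have heq : (s ^ 4) =ᶠ[𝓝 x] ((fun y => (O y).det) ^ 2) := by
      filter_upwards [hdet] with y hy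
      simp only [Pi.pow_apply, hs]
      rw [← hy.2]
      have := Real.sq_sqrt hy.1.le
      nlinarith [this]
    have h5 := (hD3.congr_of_eventuallyEq heq).unique hD4
    have h6 := congrArg (fun L : E n →L[ℝ] ℝ => L u) h5
    have hx4 : (s x) ^ 4 = (O x).det ^ 2 := by
      have := heq.self_of_nhds
      simpa using this
    simp only [smul_apply, ContinuousLinearMap.comp_apply, fderiv_det _ hU] at h6
    norm_num at h6
    rw [← hP] at h6
    set T := ∑ k, ⟪P (O' u (e n k)), e n k⟫ with hT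
    have h7 : 4 * (s x)^3 * s' u = 2 * (s x)^4 * T := by
      rw [hx4]; linarith
    have h8 : (s x)^3 ≠ 0 := by positivity
    have h9 : (s x)^3 * (4 * s' u) = (s x)^3 * (2 * s x * T) := by ring_nf; ring_nf at h7; linarith
    have h10 := mul_left_cancel₀ h8 h9
    linarith
  -- derivative of the inverse
  have hinv : HasFDerivAt (fun y => Ring.inverse (O y))
      ((-ContinuousLinearMap.mulLeftRight ℝ (E n →L[ℝ] E n) P P).comp O') x := by
    obtain ⟨u, hu⟩ := hU
    have h := hasFDerivAt_ringInverse (𝕜 := ℝ) u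
    rw [hu] at h
    have hPu : P = ↑u⁻¹ := by rw [hP, ← hu, Ring.inverse_unit]
    rw [← hPu] at h
    exact h.comp x hOd
  have hW : HasFDerivAt (Wf G O) _ x := hsd.smul hinv
  rw [hW.fderiv]
  have hterm : ∀ k, ⟪(s x • ((-ContinuousLinearMap.mulLeftRight ℝ (E n →L[ℝ] E n) P P).comp O') +
      s'.smulRight (Ring.inverse (O x))) (e n k) v, e n k⟫ =
      ⟪P v, e n k⟫ * s' (e n k) - s x * ⟪P (O' (e n k) (P v)), e n k⟫ := by
    intro k
    simp only [add_apply, smul_apply, ContinuousLinearMap.comp_apply, neg_apply,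
      ContinuousLinearMap.mulLeftRight_apply, ContinuousLinearMap.smulRight_apply,
      inner_add_left, real_inner_smul_left, inner_neg_left, smul_neg]
    rw [← hP]
    have : (P * O' (e n k) * P) v = P (O' (e n k) (P v)) := rfl
    rw [this]
    ring
  simp_rw [hterm]
  rw [Finset.sum_sub_distrib, sum_lin s' (P v), hs'e, ← Finset.mul_sum]
  have hPa := inverse_antisymm (O x) hU ha
  rw [← hP] at hPa
  have hcy := cyc O' P ha' hPa hc (P v)
  have e1 : ∑ k, ⟪P (O' (P v) (e n k)), e n k⟫ = - ∑ k, ⟪O' (P v) (e n k), P (e n k)⟫ := by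
    rw [← Finset.sum_neg_distrib]
    refine Finset.sum_congr rfl fun k _ => ?_
    rw [hPa, real_inner_comm]
  have e2 : ∑ k, ⟪P (O' (e n k) (P v)), e n k⟫ = - ∑ k, ⟪O' (e n k) (P v), P (e n k)⟫ := by
    rw [← Finset.sum_neg_distrib]
    refine Finset.sum_congr rfl fun k _ => ?_
    rw [hPa, real_inner_comm]
  rw [e1, e2, ← hcy]
  ring

end KBR.D2
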